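import Pool.Agent.U581.LB.StmJ
import Pool.Agent.U581.LB.TorA
import Pool.Agent.U603.LB.FOUR
import Pool.Agent.U480.LB.DIV

/-!
Project LJ, package FAC: on the torus the increments are nearly independent of the trigonometric
polynomials with small frequencies.
-/

set_option autoImplicit false

namespace Pool.Agent.U851.LB

open Real MeasureTheory Filter Topology Pool.Agent.U581.LB Pool.Agent.U603.LB

theorem exp_bd (y : ℝ) : ‖Complex.exp ((y : ℂ) * Complex.I) - 1‖ ≤ |y| := by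
  have h := norm_exp_sub_sq y 0
  rw [Complex.ofReal_zero, zero_mul, Complex.exp_zero, sub_zero] at h
  have h2 := (one_sub_cos_le y).trans (min_le_right _ _)
  refine abs_le_of_sq_le_sq' ?_ (abs_nonneg y) |>.2
  rw [h, sq_abs]
  linarith

theorem Yq_add (c c' : ℕ → ℂ) (N q : ℕ) (x : ℝ) :
    Yq (fun n => c' n + c n) N q x = Yq c' N q x + Yq c N q x := by
  unfold Yq
  rw [← Finset.sum_add_distrib]
  refine Finset.sum_congr rfl fun n _ => ?_
  rw [add_mul, Complex.add_re]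

theorem ce_cont (c : ℕ → ℂ) (N q : ℕ) :
    Continuous fun x : ℝ => Complex.exp (((Yq c N q x : ℝ) : ℂ) * Complex.I) :=
  Complex.continuous_exp.comp ((Complex.continuous_ofReal.comp (yq_cont c N q)).mul
        continuous_const)

/-- the characteristic function of a block -/
noncomputable def ph (c : ℕ → ℂ) (N q : ℕ) : ℂ :=
  ∫ x in (0 : ℝ)..1, Complex.exp (((Yq c N q x : ℝ) : ℂ) * Complex.I)

theorem ph_le (c : ℕ → ℂ) (N q : ℕ) : ‖ph c N q‖ ≤ 1 := by
  unfold ph
  refine (intervalIntegral.norm_integral_le_of_norm_le_const (C := 1) fun x _ => ?_).trans ?_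
  · rw [Complex.norm_exp_ofReal_mul_I]
  · simp

theorem abs_int (c : ℕ → ℂ) (N q : ℕ) {δ : ℝ} (hδ : 0 < δ) :
    ∫ x in (0 : ℝ)..1, |Yq c N q x| ≤ δ / 2 + vq c N q / (2 * δ) := by
  have h1 : ∫ x in (0 : ℝ)..1, |Yq c N q x| ≤
      ∫ x in (0 : ℝ)..1, (δ / 2 + 1 / (2 * δ) * Yq c N q x ^ 2) := by
    refine intervalIntegral.integral_mono_on zero_le_one ?_ ?_ fun x _ => ?_
    · exact (yq_cont c N q).abs.intervalIntegrable _ _
    · exact (continuous_const.add (continuous_const.mul ((yq_cont c N q).pow 2))).intervalIntegrable _ _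
    · have h2 : 0 ≤ (δ - |Yq c N q x|) ^ 2 := sq_nonneg _
      have h3 : |Yq c N q x| ^ 2 = Yq c N q x ^ 2 := sq_abs _
      have h4 : δ / 2 + 1 / (2 * δ) * Yq c N q x ^ 2 =
          (δ ^ 2 + Yq c N q x ^ 2) / (2 * δ) := by
        field_simp
      rw [h4, le_div_iff₀ (by positivity)]
      nlinarith
  refine h1.trans (le_of_eq ?_)
  rw [intervalIntegral.integral_add, intervalIntegral.integral_const_mul, int_yq_sq]
  · simp
    ring
  · exact continuous_const.intervalIntegrable _ _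
  · exact (continuous_const.mul ((yq_cont c N q).pow 2)).intervalIntegrable _ _

theorem block_diff (c c' : ℕ → ℂ) (N q : ℕ) {δ : ℝ} (hδ : 0 < δ) :
    ‖ph (fun n => c' n + c n) N q - ph c' N q * ph c N q‖ ≤ δ + vq c N q / δ := by
  set a : ℝ → ℂ := fun x => Complex.exp (((Yq c' N q x : ℝ) : ℂ) * Complex.I) with ha
  set b : ℝ → ℂ := fun x => Complex.exp (((Yq c N q x : ℝ) : ℂ) * Complex.I) with hb
  have hac : Continuous a := ce_cont c' N q
  have hbc : Continuous b := ce_cont c N q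
  have han : ∀ x, ‖a x‖ = 1 := fun x => Complex.norm_exp_ofReal_mul_I _
  have e1 : ph (fun n => c' n + c n) N q = ∫ x in (0 : ℝ)..1, a x * b x := by
    unfold ph
    refine intervalIntegral.integral_congr fun x _ => ?_
    show Complex.exp _ = _
    rw [Yq_add, ha, hb, ← Complex.exp_add]
    congr 1
    push_cast
    ring
  have e2 : ph c' N q = ∫ x in (0 : ℝ)..1, a x := rfl
  have e3 : ph c N q = ∫ x in (0 : ℝ)..1, b x := rfl
  have e4 : ∫ x in (0 : ℝ)..1, (b x - 1) = (∫ x in (0 : ℝ)..1, b x) - 1 := by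
    rw [intervalIntegral.integral_sub (hbc.intervalIntegrable _ _)
      (continuous_const.intervalIntegrable _ _)]
    simp
  have e5 : ∫ x in (0 : ℝ)..1, a x * (b x - 1) =
      (∫ x in (0 : ℝ)..1, a x * b x) - ∫ x in (0 : ℝ)..1, a x := by
    have hab : IntervalIntegrable (fun x => a x * b x) volume 0 1 :=
      (hac.mul hbc).intervalIntegrable _ _
    have haa : IntervalIntegrable (fun x => a x) volume 0 1 := hac.intervalIntegrable _ _
    rw [← intervalIntegral.integral_sub hab haa]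
    refine intervalIntegral.integral_congr fun x _ => ?_
    show a x * (b x - 1) = a x * b x - a x
    ring
  have e6 : ph (fun n => c' n + c n) N q - ph c' N q * ph c N q =
      (∫ x in (0 : ℝ)..1, a x * (b x - 1)) - ph c' N q * ∫ x in (0 : ℝ)..1, (b x - 1) := by
    rw [e5, e4, e1, e3, e2]
    ring
  have hI : ∀ g : ℝ → ℂ, Continuous g → (∀ x, ‖g x‖ ≤ |Yq c N q x|) →
      ‖∫ x in (0 : ℝ)..1, g x‖ ≤ δ / 2 + vq c N q / (2 * δ) := by
    intro g hg hgb
    refine (intervalIntegral.norm_integral_le_integral_norm zero_le_one).trans ?_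
    refine le_trans ?_ (abs_int c N q hδ)
    exact intervalIntegral.integral_mono_on zero_le_one (hg.norm.intervalIntegrable _ _)
      ((yq_cont c N q).abs.intervalIntegrable _ _) fun x _ => hgb x
  have hb1 : ∀ x, ‖b x - 1‖ ≤ |Yq c N q x| := fun x => exp_bd _
  have h7 := hI (fun x => a x * (b x - 1)) (hac.mul (hbc.sub continuous_const)) fun x => by
    rw [norm_mul, han, one_mul]; exact hb1 x
  have h8 := hI (fun x => b x - 1) (hbc.sub continuous_const) hb1
  have hv := vq_nonneg c N q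
  have h9 : 0 ≤ δ / 2 + vq c N q / (2 * δ) := by positivity
  rw [e6]
  calc ‖(∫ x in (0 : ℝ)..1, a x * (b x - 1)) - ph c' N q * ∫ x in (0 : ℝ)..1, (b x - 1)‖
      ≤ ‖∫ x in (0 : ℝ)..1, a x * (b x - 1)‖ + ‖ph c' N q * ∫ x in (0 : ℝ)..1, (b x - 1)‖ :=
        norm_sub_le _ _
    _ ≤ (δ / 2 + vq c N q / (2 * δ)) + 1 * (δ / 2 + vq c N q / (2 * δ)) := by
        rw [norm_mul]
        exact add_le_add h7 (mul_le_mul (ph_le c' N q) h8 (norm_nonneg _) zero_le_one)
    _ = δ + vq c N q / δ := by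
        field_simp
        ring

theorem prod_diff (S : Finset ℕ) (a b : ℕ → ℂ) (ha : ∀ q, ‖a q‖ ≤ 1) (hb : ∀ q, ‖b q‖ ≤ 1) :
    ‖(∏ q ∈ S, a q) - ∏ q ∈ S, b q‖ ≤ ∑ q ∈ S, ‖a q - b q‖ := by
  induction S using Finset.induction_on with
  | empty => simp
  | insert s S hs ih =>
    rw [Finset.prod_insert hs, Finset.prod_insert hs, Finset.sum_insert hs]
    have e : a s * ∏ q ∈ S, a q - b s * ∏ q ∈ S, b q =
        a s * ((∏ q ∈ S, a q) - ∏ q ∈ S, b q) + (a s - b s) * ∏ q ∈ S, b q := by ring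
    rw [e]
    have h1 : ‖∏ q ∈ S, b q‖ ≤ 1 := by
      rw [norm_prod]
      exact Finset.prod_le_one (fun q _ => norm_nonneg _) fun q _ => hb q
    calc ‖a s * ((∏ q ∈ S, a q) - ∏ q ∈ S, b q) + (a s - b s) * ∏ q ∈ S, b q‖
        ≤ ‖a s‖ * ‖(∏ q ∈ S, a q) - ∏ q ∈ S, b q‖ + ‖a s - b s‖ * ‖∏ q ∈ S, b q‖ := by
          refine (norm_add_le _ _).trans ?_
          rw [norm_mul, norm_mul]
      _ ≤ 1 * (∑ q ∈ S, ‖a q - b q‖) + ‖a s - b s‖ * 1 := by
          refine add_le_add (mul_le_mul (ha s) ih (norm_nonneg _) zero_le_one)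
            (mul_le_mul_of_nonneg_left h1 (norm_nonneg _))
      _ = _ := by ring

/-- the blocks with large `q` are not changed -/
theorem ph_large (c c' : ℕ → ℂ) (N q N₀ : ℕ) (hq : N₀ < q) (hc : ∀ n, N₀ < n → c' n = 0) :
    ph (fun n => c' n + c n) N q = ph c N q ∧ ph c' N q = 1 := by
  have h1 : ∀ n ∈ blk N q, c' n = 0 := by
    intro n hn
    obtain ⟨h2, -, h3⟩ := mem_blk hn
    apply hc
    have h4 : sf n ∣ n := ⟨rt n ^ 2, by rw [mul_comm]; exact (rt_sf n).symm⟩
    have h5 := Nat.le_of_dvd (by omega) h4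
    omega
  have h2 : ∀ x, Yq c' N q x = 0 := by
    intro x
    unfold Yq
    refine Finset.sum_eq_zero fun n hn => ?_
    rw [h1 n hn, zero_mul, Complex.zero_re]
  constructor
  · unfold ph
    refine intervalIntegral.integral_congr fun x _ => ?_
    show Complex.exp _ = Complex.exp _
    rw [Yq_add, h2, zero_add]
  · unfold ph
    simp only [h2]
    simp

theorem t_FAC : S_FAC := by
  intro A N₀ η hA hη
  obtain ⟨C, hC, hD⟩ := Pool.Agent.U480.LB.t_DIV (1 / 2) (by norm_num)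
  set δ : ℝ := η / (2 * (N₀ + 1)) with hδ
  have hδ0 : 0 < δ := by positivity
  set κ : ℝ := 16 * δ ^ 2 / (A ^ 2 * C + 1) with hκ
  have hκ0 : 0 < κ := by positivity
  refine ⟨min (κ ^ 2) (exp (-1)), lt_min (by positivity) (exp_pos _), ?_⟩
  intro ρ hρ0 hρ c c' N hdom hc'
  have hρ1 : ρ ≤ κ ^ 2 := hρ.trans (min_le_left _ _)
  have hρ2 : ρ ≤ exp (-1) := hρ.trans (min_le_right _ _)
  have hρlt : ρ < 1 := lt_of_le_of_lt hρ2 (by
    rw [Real.exp_lt_one_iff]
    norm_num)
  have hL : 1 ≤ log (1 / ρ) := by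
    rw [one_div, Real.log_inv]
    have := Real.log_le_log hρ0 hρ2
    rw [Real.log_exp] at this
    linarith
  have hg := sg_pos hρ0 hρlt
  have hg2 := sg_sq hρ0 hρlt
  -- the variance of a block
  have hvar : ∀ q : ℕ, 1 ≤ q → vq c N q ≤ δ ^ 2 := by
    intro q hq
    have h1 := hdom.vq N q
    have h2 := (hD N q ρ hq hρ0 hρlt.le).2
    have h3 : (q : ℝ) ^ (-(1 / 2) : ℝ) ≤ 1 :=
      Real.rpow_le_one_of_one_le_of_nonpos (by exact_mod_cast hq) (by norm_num)
    have h4 : Vh N q ρ ≤ C * ρ ^ (2 - 1 / 2 : ℝ) := by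
      refine h2.trans ?_
      have : 0 ≤ ρ ^ (2 - 1 / 2 : ℝ) := by positivity
      calc C * (q : ℝ) ^ (-(1 / 2) : ℝ) * ρ ^ (2 - 1 / 2 : ℝ) ≤ C * 1 * ρ ^ (2 - 1 / 2 : ℝ) := by
            gcongr
        _ = _ := by ring
    have h5 : ρ ^ (2 - 1 / 2 : ℝ) = ρ * ρ ^ (1 / 2 : ℝ) := by
      rw [show (2 - 1 / 2 : ℝ) = 1 + 1 / 2 by norm_num, Real.rpow_add hρ0, Real.rpow_one]
    have h6 : ρ ^ (1 / 2 : ℝ) ≤ κ := by
      calc ρ ^ (1 / 2 : ℝ) ≤ (κ ^ 2) ^ (1 / 2 : ℝ) :=
            Real.rpow_le_rpow hρ0.le hρ1 (by norm_num)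
        _ = κ := by
            rw [← Real.rpow_natCast, ← Real.rpow_mul hκ0.le]
            norm_num
    have h7 : (A / sg ρ) ^ 2 = A ^ 2 / (16 * (ρ * log (1 / ρ))) := by
      rw [div_pow, hg2]
    calc vq c N q ≤ (A / sg ρ) ^ 2 * Vh N q ρ := h1
      _ ≤ (A / sg ρ) ^ 2 * (C * (ρ * ρ ^ (1 / 2 : ℝ))) := by
          rw [← h5]
          exact mul_le_mul_of_nonneg_left h4 (sq_nonneg _)
      _ = A ^ 2 * C / 16 * (ρ ^ (1 / 2 : ℝ) / log (1 / ρ)) := by
          rw [h7]
          have h8 : log (1 / ρ) ≠ 0 := by linarith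
          field_simp
      _ ≤ A ^ 2 * C / 16 * κ := by
          refine mul_le_mul_of_nonneg_left ?_ (by positivity)
          rw [div_le_iff₀ (by linarith)]
          nlinarith
      _ ≤ (A ^ 2 * C + 1) / 16 * κ := by
          refine mul_le_mul_of_nonneg_right ?_ hκ0.le
          linarith
      _ = δ ^ 2 := by
          rw [hκ]
          have : A ^ 2 * C + 1 ≠ 0 := by positivity
          field_simp
  -- the product
  have e0 : ∀ c : ℕ → ℂ, ∫ θ, Complex.exp (((Y c N θ : ℝ) : ℂ) * Complex.I) ∂Th =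
      ∏ q ∈ Finset.Icc 1 N, ph c N q := fun c => (t_FOUR c N).2.1
  rw [e0, e0, e0, ← Finset.prod_mul_distrib]
  refine (prod_diff (Finset.Icc 1 N) (fun q => ph (fun n => c' n + c n) N q)
    (fun q => ph c' N q * ph c N q) (fun q => ph_le _ N q) (fun q => ?_)).trans ?_
  · rw [norm_mul]
    exact mul_le_one₀ (ph_le c' N q) (norm_nonneg _) (ph_le c N q)
  · have h1 : ∀ q ∈ Finset.Icc 1 N, ‖ph (fun n => c' n + c n) N q - ph c' N q * ph c N q‖ ≤
        if q ≤ N₀ then 2 * δ else 0 := by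
      intro q hq
      split_ifs with h
      · have h2 := block_diff c c' N q hδ0
        have h3 := hvar q (Finset.mem_Icc.1 hq).1
        have h4 : vq c N q / δ ≤ δ := by
          rw [div_le_iff₀ hδ0]; nlinarith
        linarith
      · obtain ⟨h2, h3⟩ := ph_large c c' N q N₀ (not_le.1 h) hc'
        rw [h2, h3, one_mul, sub_self, norm_zero]
    refine (Finset.sum_le_sum h1).trans ?_
    rw [← Finset.sum_filter, Finset.sum_const, nsmul_eq_mul]
    have h2 : ((Finset.Icc 1 N).filter fun q => q ≤ N₀).card ≤ N₀ := by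
      have : (Finset.Icc 1 N).filter (fun q => q ≤ N₀) ⊆ Finset.Icc 1 N₀ := by
        intro q hq
        obtain ⟨h3, h4⟩ := Finset.mem_filter.1 hq
        exact Finset.mem_Icc.2 ⟨(Finset.mem_Icc.1 h3).1, h4⟩
      have h5 := Finset.card_le_card this
      rwa [Nat.card_Icc, Nat.add_sub_cancel] at h5
    have h3 : ((((Finset.Icc 1 N).filter fun q => q ≤ N₀).card : ℕ) : ℝ) ≤ N₀ := by
      exact_mod_cast h2
    calc ((((Finset.Icc 1 N).filter fun q => q ≤ N₀).card : ℕ) : ℝ) * (2 * δ)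
        ≤ N₀ * (2 * δ) := mul_le_mul_of_nonneg_right h3 (by positivity)
      _ ≤ (N₀ + 1) * (2 * δ) := by
          refine mul_le_mul_of_nonneg_right ?_ (by positivity)
          linarith
      _ = η := by
          rw [hδ]
          field_simp

end Pool.Agent.U851.LB
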